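import Pool.Agent.W544.PG.Defs2

/-!
# Coordinates adapted to a Hodge structure of level two
-/

open Matrix Finset Module

namespace Pool.Agent.W927.PG

open Pool.Agent.W544.PG

noncomputable section

/-- the spectral theorem in matrix form -/
lemma spec {𝕜 : Type} [RCLike 𝕜] {m : Type} [Fintype m] [DecidableEq m] (A : Matrix m m 𝕜)
    (hA : A.IsHermitian) : ∃ (U : Matrix m m 𝕜) (d : m → ℝ), Uᴴ * U = 1 ∧ U * Uᴴ = 1 ∧
      A * U = U * diagonal (fun i => (d i : 𝕜)) ∧ A.trace = ∑ i, (d i : 𝕜) := by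
  have h1 : (hA.eigenvectorUnitary : Matrix m m 𝕜)ᴴ * (hA.eigenvectorUnitary : Matrix m m 𝕜) = 1 :=
    (Matrix.mem_unitaryGroup_iff').1 hA.eigenvectorUnitary.2
  have h2 : (hA.eigenvectorUnitary : Matrix m m 𝕜) * (hA.eigenvectorUnitary : Matrix m m 𝕜)ᴴ = 1 :=
    (Matrix.mem_unitaryGroup_iff).1 hA.eigenvectorUnitary.2
  refine ⟨hA.eigenvectorUnitary, hA.eigenvalues, h1, h2, ?_, hA.trace_eq_sum_eigenvalues⟩
  have h3 := hA.spectral_theorem
  rw [Unitary.conjStarAlgAut_apply] at h3
  have h5 := congrArg (fun z => z * (hA.eigenvectorUnitary : Matrix m m 𝕜)) h3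
  beta_reduce at h5
  rw [h5, mul_assoc]
  have h4 : star (hA.eigenvectorUnitary : Matrix m m 𝕜) * (hA.eigenvectorUnitary : Matrix m m 𝕜)
    = 1 := h1
  rw [h4, mul_one]
  rfl

/-- columns of a given eigenvalue -/
lemma cols {𝕜 : Type} [RCLike 𝕜] {m : Type} [Fintype m] [DecidableEq m] (A U : Matrix m m 𝕜)
    (d : m → ℝ) (hU : Uᴴ * U = 1) (hAU : A * U = U * diagonal (fun i => (d i : 𝕜))) (c : ℝ) (k : ℕ)
    (hk : (Finset.univ.filter (fun i => d i = c)).card = k) :
    ∃ E : Matrix m (Fin k) 𝕜, Eᴴ * E = 1 ∧ A * E = (c : 𝕜) • E := by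
  classical
  have hc : Fintype.card {i // d i = c} = k := by
    rw [Fintype.card_subtype, hk]
  let e : Fin k ≃ {i // d i = c} := (Fintype.equivFinOfCardEq hc).symm
  have hinj : Function.Injective (fun j : Fin k => (e j).1) :=
    fun a b hab => e.injective (Subtype.ext hab)
  refine ⟨U.submatrix id (fun j => (e j).1), ?_, ?_⟩
  · have h := submatrix_mul_equiv Uᴴ U (fun j : Fin k => (e j).1) (Equiv.refl m)
      (fun j : Fin k => (e j).1)
    simp only [Equiv.coe_refl] at h
    rw [conjTranspose_submatrix, h, hU]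
    exact submatrix_one _ hinj
  · ext i j
    have h := congrFun (congrFun hAU i) (e j).1
    rw [mul_diagonal] at h
    rw [mul_apply] at h
    simp only [mul_apply, submatrix_apply, id_eq, Matrix.smul_apply, smul_eq_mul]
    rw [h, (e j).2, mul_comm]

/-- a positive definite real matrix has a square root -/
lemma root {m : Type} [Fintype m] [DecidableEq m] (A : Matrix m m ℝ) (hA : Aᵀ = A)
    (hpos : ∀ v : m → ℝ, v ≠ 0 → 0 < v ⬝ᵥ (A *ᵥ v)) :
    ∃ C D : Matrix m m ℝ, Cᵀ * C = A ∧ C * D = 1 ∧ D * C = 1 := by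
  obtain ⟨U, d, h1, h2, h3, -⟩ := spec A (by rw [IsHermitian, conjTranspose_eq_transpose_of_trivial, hA])
  rw [conjTranspose_eq_transpose_of_trivial] at h1 h2
  simp only [RCLike.ofReal_real_eq_id, id_eq] at h3
  have hd : ∀ i, 0 < d i := by
    intro i
    have h4 : A *ᵥ (U.col i) = d i • U.col i := by
      ext j
      have := congrFun (congrFun h3 j) i
      rw [mul_diagonal, mul_apply] at this
      simp only [mulVec, dotProduct, col_apply, Pi.smul_apply, smul_eq_mul]
      rw [this, mul_comm]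
    have h5 : U.col i ⬝ᵥ U.col i = 1 := by
      have := congrFun (congrFun h1 i) i
      rw [mul_apply, one_apply_eq] at this
      simpa [dotProduct] using this
    have h6 : U.col i ≠ 0 := by
      intro h
      rw [h] at h5
      simp at h5
    have h7 := hpos _ h6
    rw [h4, dotProduct_smul, h5] at h7
    simpa using h7
  refine ⟨diagonal (fun i => Real.sqrt (d i)) * Uᵀ, U * diagonal (fun i => (Real.sqrt (d i))⁻¹),
    ?_, ?_, ?_⟩
  · rw [transpose_mul, transpose_transpose, diagonal_transpose, mul_assoc, ← mul_assoc (diagonal _),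
      diagonal_mul_diagonal, ← mul_assoc]
    have : (fun i => Real.sqrt (d i) * Real.sqrt (d i)) = d := by
      funext i
      exact Real.mul_self_sqrt (hd i).le
    rw [this, ← h3, mul_assoc, h2, mul_one]
  · rw [mul_assoc, ← mul_assoc Uᵀ, h1, one_mul, diagonal_mul_diagonal]
    have : (fun i => Real.sqrt (d i) * (Real.sqrt (d i))⁻¹) = fun _ => 1 := by
      funext i
      exact mul_inv_cancel₀ (Real.sqrt_pos.2 (hd i)).ne'
    rw [this, diagonal_one]
  · rw [mul_assoc, ← mul_assoc (diagonal _), diagonal_mul_diagonal]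
    have : (fun i => (Real.sqrt (d i))⁻¹ * Real.sqrt (d i)) = fun _ => 1 := by
      funext i
      exact inv_mul_cancel₀ (Real.sqrt_pos.2 (hd i)).ne'
    rw [this, diagonal_one, one_mul, h2]

/-- complexification -/
def cx {a b : Type} (A : Matrix a b ℝ) : Matrix a b ℂ := A.map (fun r : ℝ => (r : ℂ))

/-- the complex conjugate of a matrix -/
def cj {a b : Type} (A : Matrix a b ℂ) : Matrix a b ℂ := A.map (starRingEnd ℂ)

lemma cx_mul {a b c : Type} [Fintype b] (A : Matrix a b ℝ) (B : Matrix b c ℝ) :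
    cx (A * B) = cx A * cx B := by
  ext i j
  simp [cx, mul_apply]

lemma cx_one {a : Type} [DecidableEq a] : cx (1 : Matrix a a ℝ) = 1 := by
  ext i j
  by_cases h : i = j
  · subst h
    simp [cx]
  · simp [cx, one_apply, h]

lemma cx_transpose {a b : Type} (A : Matrix a b ℝ) : cx Aᵀ = (cx A)ᵀ := rfl

lemma cj_cx {a b : Type} (A : Matrix a b ℝ) : cj (cx A) = cx A := by
  ext i j
  simp [cj, cx]

lemma cj_mul {a b c : Type} [Fintype b] (A : Matrix a b ℂ) (B : Matrix b c ℂ) :
    cj (A * B) = cj A * cj B := by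
  ext i j
  simp [cj, mul_apply]

lemma cj_cj {a b : Type} (A : Matrix a b ℂ) : cj (cj A) = A := by
  ext i j
  simp [cj]

lemma cj_transpose {a b : Type} (A : Matrix a b ℂ) : (cj A)ᵀ = Aᴴ := by
  ext i j
  simp [cj]

lemma cj_conjTranspose {a b : Type} (A : Matrix a b ℂ) : (cj A)ᴴ = Aᵀ := by
  ext i j
  simp [cj]

lemma cj_one {a : Type} [DecidableEq a] : cj (1 : Matrix a a ℂ) = 1 := by
  ext i j
  by_cases h : i = j
  · subst h
    simp [cj]
  · simp [cj, one_apply, h]

lemma exists_cx {a b : Type} (A : Matrix a b ℂ) (h : cj A = A) : ∃ B : Matrix a b ℝ, cx B = A := by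
  refine ⟨A.map Complex.re, ?_⟩
  ext i j
  have := congrFun (congrFun h i) j
  simp only [cj, map_apply] at this
  simp only [cx, map_apply]
  exact Complex.conj_eq_iff_re.1 this

lemma cx_inj {a b : Type} {A B : Matrix a b ℝ} (h : cx A = cx B) : A = B := by
  ext i j
  have := congrFun (congrFun h i) j
  simpa [cx] using this

/-- The Hermitian matrix `y` with `y ^ 3 = y`, `conj y = - y`. -/
lemma herm {n p q : ℕ} (y : Matrix (Fin n) (Fin n) ℂ) (hy : yᴴ = y) (hy3 : y * y * y = y)
    (hc : cj y = -y) (ht : (y * y).trace = 2 * p) (hn : n = 2 * p + q) :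
    ∃ (E : Matrix (Fin n) (Fin p) ℂ) (F : Matrix (Fin n) (Fin q) ℝ),
      Eᴴ * E = 1 ∧ y * E = E ∧ Fᵀ * F = 1 ∧ y * cx F = 0 := by
  obtain ⟨U, d, hU1, hU2, hU3, htr⟩ := spec y hy
  -- the eigenvalues
  have hd : ∀ i, d i = 0 ∨ d i = 1 ∨ d i = -1 := by
    intro i
    have h1 : y * y * y * U = U * diagonal (fun i => ((d i : ℂ)) ^ 3) := by
      rw [mul_assoc, hU3, ← mul_assoc (y * y), mul_assoc y y, hU3, ← mul_assoc y, hU3]
      simp only [mul_assoc, diagonal_mul_diagonal]
      congr 2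
      funext j
      simp only [Complex.coe_algebraMap]
      ring
    rw [hy3, hU3] at h1
    have h2 := congrArg (fun z => Uᴴ * z) h1
    simp only [← mul_assoc, hU1, one_mul] at h2
    have h3 := congrFun (congrFun h2 i) i
    simp only [diagonal_apply_eq] at h3
    have h4 : d i = d i ^ 3 := by
      have h6 : ((d i : ℝ) : ℂ) = ((d i ^ 3 : ℝ) : ℂ) := by
        rw [Complex.ofReal_pow]
        exact h3
      exact Complex.ofReal_injective h6
    have h5 : d i * ((d i - 1) * (d i + 1)) = 0 := by linear_combination -h4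
    rcases mul_eq_zero.1 h5 with h | h
    · exact Or.inl h
    · rcases mul_eq_zero.1 h with h | h
      · exact Or.inr (Or.inl (by linarith))
      · exact Or.inr (Or.inr (by linarith))
  -- the traces
  have hs1 : ∑ i, d i = 0 := by
    have h1 : starRingEnd ℂ y.trace = -y.trace := by
      have h2 := congrArg Matrix.trace hc
      rw [trace_neg] at h2
      rw [← h2]
      simp [cj, Matrix.trace]
    rw [htr] at h1
    have h3 : starRingEnd ℂ (∑ i, ((d i : ℝ) : ℂ)) = -∑ i, ((d i : ℝ) : ℂ) := h1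
    rw [← Complex.ofReal_sum, Complex.conj_ofReal] at h3
    have h4 : (∑ i, d i) = -∑ i, d i := by
      apply Complex.ofReal_injective
      rw [Complex.ofReal_neg]
      exact h3
    linarith
  have hs2 : ∑ i, d i ^ 2 = 2 * p := by
    have h1 : y * y = U * diagonal (fun i => ((d i : ℂ)) ^ 2) * Uᴴ := by
      have h2 : y * y * U = U * diagonal (fun i => ((d i : ℂ)) ^ 2) := by
        rw [mul_assoc, hU3, ← mul_assoc y, hU3]
        simp only [mul_assoc, diagonal_mul_diagonal]
        congr 2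
        funext j
        simp only [Complex.coe_algebraMap]
        ring
      rw [← h2, mul_assoc, hU2, mul_one]
    rw [h1, trace_mul_comm, ← mul_assoc, hU1, one_mul, trace_diagonal] at ht
    apply Complex.ofReal_injective
    rw [Complex.ofReal_sum]
    simp only [Complex.ofReal_pow, Complex.ofReal_mul, Complex.ofReal_ofNat, Complex.ofReal_natCast]
    exact ht
  have hcard : (Finset.univ.filter (fun i => d i = 1)).card = p := by
    have h1 : ∀ i, d i + d i ^ 2 = 2 * (if d i = 1 then 1 else 0) := by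
      intro i
      rcases hd i with h | h | h
      · rw [h]; norm_num
      · rw [h]; norm_num
      · rw [h]; norm_num
    have h2 : ∑ i, (d i + d i ^ 2) = 2 * (Finset.univ.filter (fun i => d i = 1)).card := by
      rw [Finset.sum_congr rfl (fun i _ => h1 i), ← Finset.mul_sum, Finset.sum_boole]
    rw [Finset.sum_add_distrib, hs1, hs2, zero_add] at h2
    have h3 : ((Finset.univ.filter (fun i => d i = 1)).card : ℝ) = p := by linarith
    exact_mod_cast h3
  obtain ⟨E, hE1, hE2⟩ := cols y U d hU1 hU3 1 p hcard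
  -- the kernel
  have hyT : yᵀ = -y := by
    rw [← cj_conjTranspose, hc, conjTranspose_neg, hy]
  obtain ⟨Z, hZ⟩ := exists_cx (y * y) (by rw [cj_mul, hc, neg_mul_neg])
  have hZT : Zᵀ = Z := by
    apply cx_inj
    rw [cx_transpose, hZ, transpose_mul, hyT, neg_mul_neg]
  have hZZ : Z * Z = Z := by
    apply cx_inj
    rw [cx_mul, hZ, ← mul_assoc, hy3]
  obtain ⟨V, m, hV1, hV2, hV3, hVt⟩ := spec Z
    (by rw [IsHermitian, conjTranspose_eq_transpose_of_trivial, hZT])
  have hm : ∀ i, m i = 0 ∨ m i = 1 := by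
    intro i
    have h1 : Z * Z * V = V * diagonal (fun i => (m i) * m i) := by
      rw [mul_assoc, hV3, ← mul_assoc Z, hV3]
      simp only [mul_assoc, diagonal_mul_diagonal]
      rfl
    rw [hZZ, hV3] at h1
    have h2 := congrArg (fun z => Vᴴ * z) h1
    simp only [← mul_assoc, hV1, one_mul] at h2
    have h3 := congrFun (congrFun h2 i) i
    simp only [diagonal_apply_eq] at h3
    have h4 : m i = m i * m i := h3
    have h5 : m i * (m i - 1) = 0 := by linear_combination -h4
    rcases mul_eq_zero.1 h5 with h | h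
    · exact Or.inl h
    · exact Or.inr (by linarith)
  have hms : ∑ i, m i = 2 * p := by
    have h1 : (y * y).trace = ((Z.trace : ℝ) : ℂ) := by
      rw [← hZ]
      simp [cx, Matrix.trace]
    rw [hVt] at h1
    rw [ht] at h1
    apply Complex.ofReal_injective
    rw [Complex.ofReal_mul, Complex.ofReal_ofNat, Complex.ofReal_natCast]
    exact h1.symm
  have hcard0 : (Finset.univ.filter (fun i => m i = 0)).card = q := by
    have h1 : ∀ i, 1 - m i = (if m i = 0 then 1 else 0) := by
      intro i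
      rcases hm i with h | h
      · rw [h]; norm_num
      · rw [h]; norm_num
    have h2 : ∑ i, (1 - m i) = (Finset.univ.filter (fun i => m i = 0)).card := by
      rw [Finset.sum_congr rfl (fun i _ => h1 i), Finset.sum_boole]
    rw [Finset.sum_sub_distrib, hms] at h2
    simp only [Finset.sum_const, Finset.card_univ, Fintype.card_fin, nsmul_eq_mul, mul_one] at h2
    have h3 : (n : ℝ) = 2 * p + q := by exact_mod_cast hn
    have h4 : ((Finset.univ.filter (fun i => m i = 0)).card : ℝ) = q := by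
      rw [← h2, h3]
      ring
    exact_mod_cast h4
  obtain ⟨F, hF1, hF2⟩ := cols Z V m hV1 hV3 0 q hcard0
  refine ⟨E, F, hE1, ?_, ?_, ?_⟩
  · rw [hE2]
    simp
  · rwa [conjTranspose_eq_transpose_of_trivial] at hF1
  · have h1 : Z * F = 0 := by
      rw [hF2]
      simp
    have h2 : y * y * cx F = 0 := by
      rw [← hZ, ← cx_mul, h1]
      ext i j
      simp [cx]
    rw [← hy3, mul_assoc y y y, Matrix.mul_assoc y (y * y) (cx F), h2, Matrix.mul_zero]

/-- The frame. -/
def frame {n p q : ℕ} (E : Matrix (Fin n) (Fin p) ℂ) (F : Matrix (Fin n) (Fin q) ℝ) :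
    Matrix (Fin n) (I p q) ℂ := fromCols E (fromCols (Complex.I • cx F) (cj E))

lemma frame_facts {n p q : ℕ} (y : Matrix (Fin n) (Fin n) ℂ) (hy : yᴴ = y)
    (hc : cj y = -y) (E : Matrix (Fin n) (Fin p) ℂ) (F : Matrix (Fin n) (Fin q) ℝ)
    (hE : Eᴴ * E = 1) (hyE : y * E = E) (hF : Fᵀ * F = 1) (hyF : y * cx F = 0) :
    (frame E F)ᴴ * frame E F = 1 ∧ y * frame E F = frame E F * x0 p q ∧
      (frame E F)ᵀ * (((2 : ℂ) • (y * y) - 1) * frame E F) = B0 p q := by
  have hyc : y * cj E = -cj E := by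
    have := congrArg cj hyE
    rw [cj_mul, hc, Matrix.neg_mul] at this
    rw [← neg_eq_iff_eq_neg]
    exact this
  have hyT : yᵀ = -y := by
    rw [← cj_conjTranspose, hc, conjTranspose_neg, hy]
  -- orthogonality
  have o1 : Eᴴ * cj E = 0 := by
    have h1 : Eᴴ * (y * cj E) = Eᴴ * cj E := by
      rw [← Matrix.mul_assoc]
      congr 1
      rw [← hy, ← conjTranspose_mul, hyE]
    rw [hyc, Matrix.mul_neg] at h1
    have h2 : (2 : ℂ) • (Eᴴ * cj E) = 0 := by
      rw [two_smul]
      nth_rewrite 1 [← h1]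
      exact neg_add_cancel _
    exact (smul_eq_zero.1 h2).resolve_left two_ne_zero
  have o2 : Eᴴ * cx F = 0 := by
    have h1 : Eᴴ * (y * cx F) = Eᴴ * cx F := by
      rw [← Matrix.mul_assoc]
      congr 1
      rw [← hy, ← conjTranspose_mul, hyE]
    rw [← h1, hyF, Matrix.mul_zero]
  have cjz : ∀ {a b : Type} (A : Matrix a b ℂ), A = 0 → cj A = 0 := by
    intro a b A h
    rw [h]
    ext i j
    simp [cj]
  have cjH : ∀ {a b : Type} (A : Matrix a b ℂ), cj (Aᴴ) = Aᵀ := by
    intro a b A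
    ext i j
    simp [cj]
  have cjT : ∀ {a b : Type} (A : Matrix a b ℂ), (cj A)ᵀ = Aᴴ := fun A => cj_transpose A
  have hFF : (cx F)ᵀ * cx F = 1 := by
    rw [← cx_transpose, ← cx_mul, hF, cx_one]
  have hFH : (cx F)ᴴ = (cx F)ᵀ := by
    rw [← cj_transpose, cj_cx]
  -- conjugates
  have o1' : Eᵀ * E = 0 := by
    have := cjz _ o1
    rwa [cj_mul, cjH, cj_cj] at this
  have o2' : Eᵀ * cx F = 0 := by
    have := cjz _ o2
    rwa [cj_mul, cjH, cj_cx] at this
  have hE' : Eᵀ * cj E = 1 := by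
    have := congrArg cj hE
    rwa [cj_mul, cjH, cj_one] at this
  have o3 : (cx F)ᵀ * E = 0 := by
    have := congrArg Matrix.transpose o2'
    rwa [transpose_mul, transpose_transpose, transpose_zero] at this
  have o3' : (cx F)ᵀ * cj E = 0 := by
    have := congrArg Matrix.transpose o2
    rw [transpose_mul, transpose_zero] at this
    rw [← this]
    congr 1
  have y2E : ((2 : ℂ) • (y * y) - 1) * E = E := by
    rw [Matrix.sub_mul, Matrix.smul_mul, Matrix.mul_assoc, hyE, hyE, Matrix.one_mul, two_smul]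
    abel
  have y2c : ((2 : ℂ) • (y * y) - 1) * cj E = cj E := by
    rw [Matrix.sub_mul, Matrix.smul_mul, Matrix.mul_assoc, hyc, Matrix.mul_neg, hyc, neg_neg,
      Matrix.one_mul, two_smul]
    abel
  have y2F : ((2 : ℂ) • (y * y) - 1) * cx F = -cx F := by
    rw [Matrix.sub_mul, Matrix.smul_mul, Matrix.mul_assoc, hyF, Matrix.mul_zero, smul_zero,
      Matrix.one_mul, zero_sub]
  refine ⟨?_, ?_, ?_⟩
  · have p1 : (Complex.I • cx F)ᴴ * E = 0 := by
      rw [conjTranspose_smul, Matrix.smul_mul, hFH, o3, smul_zero]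
    have p2 : (Complex.I • cx F)ᴴ * cj E = 0 := by
      rw [conjTranspose_smul, Matrix.smul_mul, hFH, o3', smul_zero]
    have p3 : (Complex.I • cx F)ᴴ * (Complex.I • cx F) = 1 := by
      rw [conjTranspose_smul, Matrix.smul_mul, Matrix.mul_smul, hFH, hFF, smul_smul]
      simp
    have p4 : (cj E)ᴴ * E = 0 := by rw [cj_conjTranspose, o1']
    have p5 : (cj E)ᴴ * (Complex.I • cx F) = 0 := by
      rw [cj_conjTranspose, Matrix.mul_smul, o2', smul_zero]
    have p6 : (cj E)ᴴ * cj E = 1 := by rw [cj_conjTranspose, hE']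
    have p7 : Eᴴ * (Complex.I • cx F) = 0 := by rw [Matrix.mul_smul, o2, smul_zero]
    rw [frame, conjTranspose_fromCols_eq_fromRows_conjTranspose, fromRows_mul_fromCols,
      conjTranspose_fromCols_eq_fromRows_conjTranspose, fromRows_mul_fromCols, mul_fromCols,
      fromRows_mul, hE, p1, p2, p3, p4, p5, p6, p7, o1, fromCols_zero, fromRows_zero,
      fromBlocks_one, fromBlocks_one]
  · rw [frame, mul_fromCols, mul_fromCols, x0, big0, fromCols_mul_fromBlocks,
      fromCols_mul_fromBlocks, hyE, hyc, Matrix.mul_smul, hyF]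
    simp only [Matrix.mul_one, Matrix.mul_zero, add_zero, zero_add, transpose_one,
      Matrix.mul_neg, smul_zero]
  · have q1 : (Complex.I • cx F)ᵀ * (Complex.I • -cx F) = 1 := by
      rw [transpose_smul, Matrix.smul_mul, Matrix.mul_smul, Matrix.mul_neg, hFF, smul_smul]
      simp
    have q2 : Eᵀ * (Complex.I • -cx F) = 0 := by
      rw [Matrix.mul_smul, Matrix.mul_neg, o2', neg_zero, smul_zero]
    have q3 : (Complex.I • cx F)ᵀ * E = 0 := by
      rw [transpose_smul, Matrix.smul_mul, o3, smul_zero]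
    have q4 : (Complex.I • cx F)ᵀ * cj E = 0 := by
      rw [transpose_smul, Matrix.smul_mul, o3', smul_zero]
    have q5 : (cj E)ᵀ * E = 1 := by rw [cjT, hE]
    have q6 : (cj E)ᵀ * (Complex.I • -cx F) = 0 := by
      rw [cjT, Matrix.mul_smul, Matrix.mul_neg, o2, neg_zero, smul_zero]
    have q7 : (cj E)ᵀ * cj E = 0 := by rw [cjT, o1]
    have q8 : ((2 : ℂ) • (y * y) - 1) * frame E F =
        fromCols E (fromCols (Complex.I • -cx F) (cj E)) := by
      rw [frame, mul_fromCols, mul_fromCols, y2E, y2c, Matrix.mul_smul, y2F]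
    rw [q8, frame, transpose_fromCols,
      transpose_fromCols, fromRows_mul_fromCols, fromRows_mul_fromCols, mul_fromCols, fromRows_mul,
      o1', hE', q1, q2, q3, q4, q5, q6, q7, B0]

theorem coord : S_coord := by
  intro n p q T htr hn
  -- the rational form
  have hQT : (mC T.Q)ᵀ = mC T.Q := by
    have := congrArg mC T.symm
    rwa [show mC (T.Qᵀ) = (mC T.Q)ᵀ from rfl] at this
  have hQc : cj (mC T.Q) = mC T.Q := by
    ext i j
    simp [cj, mC]
  have hxc : cj T.x = -T.x := T.real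
  have hxT : T.xᵀ * mC T.Q = -(mC T.Q * T.x) := eq_neg_of_add_eq_zero_left T.skew
  have hxH : T.xᴴ = -T.xᵀ := by
    rw [← cj_transpose, hxc, transpose_neg]
  have hQH : (mC T.Q)ᴴ = mC T.Q := by
    rw [← cj_transpose, hQc, hQT]
  -- `H` is real and symmetric
  have hxxQ : T.xᵀ * T.xᵀ * mC T.Q = mC T.Q * (T.x * T.x) := by
    rw [mul_assoc, hxT, mul_neg, ← mul_assoc, hxT, neg_mul, neg_neg, mul_assoc]
  have hHT : T.Hᵀ = T.H := by
    rw [HS.H, transpose_mul, transpose_sub, transpose_smul, transpose_mul, transpose_one, hQT,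
      sub_mul, smul_mul_assoc, hxxQ, one_mul, mul_sub, mul_smul_comm, mul_one]
  have hHc : cj T.H = T.H := by
    have h1 : cj ((2 : ℂ) • (T.x * T.x) - 1) = (2 : ℂ) • (T.x * T.x) - 1 := by
      have h2 : cj (T.x * T.x) = T.x * T.x := by rw [cj_mul, hxc, neg_mul_neg]
      have h3 : ∀ i j, starRingEnd ℂ ((T.x * T.x) i j) = (T.x * T.x) i j := fun i j =>
        congrFun (congrFun h2 i) j
      ext i j
      simp only [cj, map_apply, Matrix.sub_apply, Matrix.smul_apply, smul_eq_mul, map_sub, map_mul,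
        Complex.conj_ofNat, h3]
      congr 1
      by_cases h : i = j
      · subst h; simp
      · simp [one_apply, h]
    rw [HS.H, cj_mul, hQc, h1]
  obtain ⟨Hr, hHr⟩ := exists_cx T.H hHc
  have hHrT : Hrᵀ = Hr := by
    apply cx_inj
    rw [cx_transpose, hHr, hHT]
  have hpos : ∀ v : Fin n → ℝ, v ≠ 0 → 0 < v ⬝ᵥ (Hr *ᵥ v) := by
    intro v hv
    have h1 := T.pos (fun i => (v i : ℂ)) (by
      intro h
      apply hv
      funext i
      have := congrFun h i
      simpa using this)
    have h2 : (star (fun i => (v i : ℂ)) ⬝ᵥ (T.H *ᵥ fun i => (v i : ℂ))) =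
        ((v ⬝ᵥ (Hr *ᵥ v) : ℝ) : ℂ) := by
      rw [← hHr]
      simp [dotProduct, mulVec, cx]
    have h3 : (star (fun i => (v i : ℂ)) ⬝ᵥ (T.H *ᵥ fun i => (v i : ℂ))).re = v ⬝ᵥ (Hr *ᵥ v) := by
      rw [h2, Complex.ofReal_re]
    rw [← h3]
    exact h1
  obtain ⟨C, D, hCC, hCD, hDC⟩ := root Hr hHrT hpos
  have cCC : (cx C)ᵀ * cx C = T.H := by
    rw [← cx_transpose, ← cx_mul, hCC, hHr]
  have cCD : cx C * cx D = 1 := by rw [← cx_mul, hCD, cx_one]
  have cDC : cx D * cx C = 1 := by rw [← cx_mul, hDC, cx_one]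
  have cHC : (cx C)ᴴ = (cx C)ᵀ := by rw [← cj_transpose, cj_cx]
  have cHD : (cx D)ᴴ = (cx D)ᵀ := by rw [← cj_transpose, cj_cx]
  have cDHD : (cx D)ᵀ * T.H * cx D = 1 := by
    rw [← cCC, ← mul_assoc, ← transpose_mul, cCD, transpose_one, one_mul, cCD]
  -- self-adjointness
  have hself : T.xᴴ * T.H = T.H * T.x := by
    rw [hxH, HS.H, neg_mul, ← mul_assoc, hxT, neg_mul, neg_neg, mul_assoc, mul_assoc]
    congr 1
    rw [mul_sub, sub_mul, mul_smul_comm, smul_mul_assoc, mul_assoc, mul_one, one_mul]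
  set y := cx C * T.x * cx D with hydef
  have hy : yᴴ = y := by
    have h1 : T.x = T.x * (cx D * cx C) := by rw [cDC, mul_one]
    have h2 : (cx D)ᵀ * T.xᴴ * (cx C)ᵀ = cx C * T.x * cx D := by
      have h3 : (cx D)ᵀ * (T.xᴴ * T.H) * cx D = (cx D)ᵀ * (T.H * T.x) * cx D := by rw [hself]
      rw [← cCC] at h3
      have h4 : (cx D)ᵀ * (T.xᴴ * ((cx C)ᵀ * cx C)) * cx D = (cx D)ᵀ * T.xᴴ * (cx C)ᵀ := by
        simp only [mul_assoc]
        rw [cCD, mul_one]
      have h5 : (cx D)ᵀ * ((cx C)ᵀ * cx C * T.x) * cx D = cx C * T.x * cx D := by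
        simp only [← mul_assoc]
        rw [← transpose_mul, cCD, transpose_one, one_mul]
      rw [h4, h5] at h3
      exact h3
    rw [hydef, conjTranspose_mul, conjTranspose_mul, cHC, cHD, ← mul_assoc]
    exact h2
  have hyy : y * y = cx C * (T.x * T.x) * cx D := by
    rw [hydef]
    calc cx C * T.x * cx D * (cx C * T.x * cx D) = cx C * T.x * (cx D * cx C) * T.x * cx D := by
          simp only [mul_assoc]
      _ = _ := by rw [cDC, mul_one]; simp only [mul_assoc]
  have hy3 : y * y * y = y := by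
    rw [hyy]
    conv_lhs => rw [hydef]
    calc cx C * (T.x * T.x) * cx D * (cx C * T.x * cx D)
        = cx C * (T.x * T.x) * (cx D * cx C) * T.x * cx D := by simp only [mul_assoc]
      _ = cx C * (T.x * T.x * T.x) * cx D := by rw [cDC, mul_one]; simp only [mul_assoc]
      _ = _ := by rw [T.cube]
  have hyc : cj y = -y := by
    rw [hydef, cj_mul, cj_mul, cj_cx, cj_cx, hxc, mul_neg, neg_mul]
  have hyt : (y * y).trace = 2 * p := by
    rw [hyy, trace_mul_comm, ← mul_assoc, cDC, one_mul, htr]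
  obtain ⟨E, F, hE, hyE, hF, hyF⟩ := herm (q := q) y hy hy3 hyc hyt hn
  obtain ⟨k1, k2, k3⟩ := frame_facts y hy hyc E F hE hyE hF hyF
  have hcard : Fintype.card (Fin n) = Fintype.card (I p q) := by
    simp only [Fintype.card_fin, Fintype.card_sum]
    omega
  have hgH : (cx D * frame E F)ᴴ * T.H * (cx D * frame E F) = 1 := by
    rw [conjTranspose_mul, cHD]
    calc (frame E F)ᴴ * (cx D)ᵀ * T.H * (cx D * frame E F)
        = (frame E F)ᴴ * ((cx D)ᵀ * T.H * cx D) * frame E F := by simp only [Matrix.mul_assoc]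
      _ = 1 := by rw [cDHD, Matrix.mul_one, k1]
  refine ⟨cx D * frame E F, ?_, hgH, ?_, ?_⟩
  · have h1 : (cx D)ᵀ * mC T.Q * cx D = (2 : ℂ) • (y * y) - 1 := by
      have h2 : ((2 : ℂ) • (T.x * T.x) - 1) * ((2 : ℂ) • (T.x * T.x) - 1) = 1 := by
        have h3 : T.x * T.x * (T.x * T.x) = T.x * T.x := by
          rw [← mul_assoc, T.cube]
        rw [sub_mul, mul_sub, smul_mul_smul_comm, h3, mul_one, one_mul]
        module
      have h4 : mC T.Q = T.H * ((2 : ℂ) • (T.x * T.x) - 1) := by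
        rw [HS.H, mul_assoc, h2, mul_one]
      rw [h4, ← cCC]
      calc (cx D)ᵀ * ((cx C)ᵀ * cx C * ((2 : ℂ) • (T.x * T.x) - 1)) * cx D
          = ((cx D)ᵀ * (cx C)ᵀ) * (cx C * ((2 : ℂ) • (T.x * T.x) - 1) * cx D) := by
            simp only [mul_assoc]
        _ = cx C * ((2 : ℂ) • (T.x * T.x) - 1) * cx D := by
            rw [← transpose_mul, cCD, transpose_one, one_mul]
        _ = _ := by
            rw [mul_sub, sub_mul, mul_smul_comm, smul_mul_assoc, ← hyy, mul_one, cCD]
    rw [transpose_mul]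
    calc (frame E F)ᵀ * (cx D)ᵀ * mC T.Q * (cx D * frame E F)
        = (frame E F)ᵀ * (((cx D)ᵀ * mC T.Q * cx D) * frame E F) := by
          simp only [Matrix.mul_assoc]
      _ = B0 p q := by rw [h1, k3]
  · exact (Matrix.mul_eq_one_comm_of_card_eq (Fin n) (I p q) ℂ hcard).2 hgH
  · have h1 : T.x * cx D = cx D * y := by
      rw [hydef]
      simp only [← mul_assoc]
      rw [cDC, one_mul]
    rw [← Matrix.mul_assoc, h1, Matrix.mul_assoc, k2, Matrix.mul_assoc]

end

end Pool.Agent.W927.PG
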